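import Pool.Agent.Helper716_Lang.RCPoly

set_option autoImplicit false

/-!
# Gaps of an ordered field in its real closure
-/

namespace Pool.Agent.T9h43.NF

open Polynomial Set

variable {K R : Type} [Field K] [LinearOrder K] [IsStrictOrderedRing K]
  [Field R] [LinearOrder R] [IsStrictOrderedRing R] [Algebra K R]

/-- the distance of `r` to `K` is positive -/
def Gap (K : Type) {R : Type} [Field K] [LinearOrder K] [Field R] [LinearOrder R] [Algebra K R]
    (r : R) : Prop :=
  ∃ e : K, 0 < e ∧ ∀ x : K, algebraMap K R e ≤ |algebraMap K R x - r|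

/-- every element of `R` is less than an element of `K` -/
theorem cofinal [Algebra.IsAlgebraic K R] (hm : StrictMono (algebraMap K R)) (r : R) :
    ∃ b : K, r < algebraMap K R b := by
  have hint : IsIntegral K r := Algebra.IsIntegral.isIntegral r
  set p := minpoly K r with hp
  have hmonic : p.Monic := minpoly.monic hint
  have hn : 0 < p.natDegree := minpoly.natDegree_pos hint
  refine ⟨1 + ∑ k ∈ Finset.range p.natDegree, |p.coeff k|, ?_⟩
  by_contra hcon
  push Not at hcon
  set s := ∑ k ∈ Finset.range p.natDegree, |p.coeff k| with hs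
  have hs0 : 0 ≤ s := Finset.sum_nonneg fun k _ => abs_nonneg _
  have hr1 : 1 ≤ r := by
    refine le_trans ?_ hcon
    rw [← map_one (algebraMap K R)]
    exact hm.monotone (by linarith)
  have hev : ∑ k ∈ Finset.range (p.natDegree + 1), algebraMap K R (p.coeff k) * r ^ k = 0 := by
    have := minpoly.aeval K r
    rw [← hp, aeval_eq_sum_range] at this
    simpa [Algebra.smul_def] using this
  rw [Finset.sum_range_succ, hmonic.coeff_natDegree, map_one, one_mul] at hev
  have h1 : |∑ k ∈ Finset.range p.natDegree, algebraMap K R (p.coeff k) * r ^ k| ≤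
      algebraMap K R s * r ^ (p.natDegree - 1) := by
    refine (Finset.abs_sum_le_sum_abs _ _).trans ?_
    rw [hs, map_sum, Finset.sum_mul]
    refine Finset.sum_le_sum fun k hk => ?_
    rw [abs_mul, abs_of_nonneg (show 0 ≤ r ^ k by positivity)]
    have e1 : |algebraMap K R (p.coeff k)| = algebraMap K R |p.coeff k| := by
      rcases le_total 0 (p.coeff k) with h | h
      · rw [abs_of_nonneg h, abs_of_nonneg]
        rw [← map_zero (algebraMap K R)]
        exact hm.monotone h
      · rw [abs_of_nonpos h, abs_of_nonpos, map_neg]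
        rw [← map_zero (algebraMap K R)]
        exact hm.monotone h
    rw [e1]
    apply mul_le_mul_of_nonneg_left
    · apply pow_le_pow_right₀ hr1
      have := Finset.mem_range.1 hk
      omega
    · rw [← map_zero (algebraMap K R)]
      exact hm.monotone (abs_nonneg _)
  have h2 : r ^ p.natDegree = r * r ^ (p.natDegree - 1) := by
    rw [← pow_succ']
    congr 1
    omega
  have h3 : r ^ p.natDegree ≤ algebraMap K R s * r ^ (p.natDegree - 1) := by
    have e : r ^ p.natDegree = -∑ k ∈ Finset.range p.natDegree, algebraMap K R (p.coeff k) * r ^ k := by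
      linarith
    rw [e]
    exact (neg_le_abs _).trans h1
  rw [h2] at h3
  have h4 : 0 < r ^ (p.natDegree - 1) := by positivity
  have h5 : r ≤ algebraMap K R s := le_of_mul_le_mul_right h3 h4
  have h6 : algebraMap K R (1 + s) = 1 + algebraMap K R s := by rw [map_add, map_one]
  rw [h6] at hcon
  linarith

theorem coinitial [Algebra.IsAlgebraic K R] (hm : StrictMono (algebraMap K R)) {r : R}
    (hr : 0 < r) : ∃ e : K, 0 < e ∧ algebraMap K R e < r := by
  obtain ⟨b, hb⟩ := cofinal (K := K) hm r⁻¹
  have h1 : 0 < algebraMap K R b := (inv_pos.2 hr).trans hb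
  have h2 : 0 < b := by
    rw [← map_zero (algebraMap K R)] at h1
    exact hm.lt_iff_lt.1 h1
  refine ⟨b⁻¹, inv_pos.2 h2, ?_⟩
  rw [map_inv₀]
  exact inv_lt_of_inv_lt₀ hr hb

theorem left_of_not_gap [Algebra.IsAlgebraic K R] (hm : StrictMono (algebraMap K R)) {z r : R}
    (hz : ¬ Gap K z) (hr : r < z) : ∃ x : K, r < algebraMap K R x ∧ algebraMap K R x < z := by
  obtain ⟨e, he, h1⟩ := coinitial (K := K) hm (show 0 < (z - r) / 2 by linarith)
  unfold Gap at hz
  push Not at hz
  obtain ⟨x, hx⟩ := hz (e / 2) (by linarith)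
  refine ⟨x - e / 2, ?_, ?_⟩
  · rw [map_sub]
    have e1 : algebraMap K R (e / 2) + algebraMap K R (e / 2) = algebraMap K R e := by
      rw [← map_add, add_halves]
    have := (abs_lt.1 hx).1
    linarith
  · rw [map_sub]
    have := (abs_lt.1 hx).2
    linarith

theorem right_of_not_gap [Algebra.IsAlgebraic K R] (hm : StrictMono (algebraMap K R)) {z r : R}
    (hz : ¬ Gap K z) (hr : z < r) : ∃ x : K, z < algebraMap K R x ∧ algebraMap K R x < r := by
  obtain ⟨e, he, h1⟩ := coinitial (K := K) hm (show 0 < (r - z) / 2 by linarith)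
  unfold Gap at hz
  push Not at hz
  obtain ⟨x, hx⟩ := hz (e / 2) (by linarith)
  refine ⟨x + e / 2, ?_, ?_⟩
  · rw [map_add]
    have := (abs_lt.1 hx).1
    linarith
  · rw [map_add]
    have e1 : algebraMap K R (e / 2) + algebraMap K R (e / 2) = algebraMap K R e := by
      rw [← map_add, add_halves]
    have := (abs_lt.1 hx).2
    linarith

/-- a gap given by the sign of a polynomial -/
theorem exists_cut [IsRealClosed R] [Algebra.IsAlgebraic K R]
    (hm : StrictMono (algebraMap K R)) (h : ∃ r : R, Gap K r) :
    ∃ (f : K[X]) (l u : K) (r : R), Gap K r ∧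
      ∀ x : K, (x < l ∨ (x ≤ u ∧ 0 < f.eval x * f.eval l)) ↔ algebraMap K R x < r := by
  classical
  have hex : ∃ n : ℕ, ∃ r : R, Gap K r ∧ (minpoly K r).natDegree = n := by
    obtain ⟨r, hr⟩ := h
    exact ⟨_, r, hr, rfl⟩
  obtain ⟨a, ha, hdeg⟩ := Nat.find_spec hex
  have hmin : ∀ z : R, (minpoly K z).natDegree < (minpoly K a).natDegree → ¬ Gap K z := by
    intro z hz hg
    rw [hdeg] at hz
    exact Nat.find_min hex hz ⟨z, hg, rfl⟩
  set f := minpoly K a with hf
  have hint : IsIntegral K a := Algebra.IsIntegral.isIntegral a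
  have hn : 0 < f.natDegree := minpoly.natDegree_pos hint
  have hf' : f.derivative ≠ 0 := by
    intro h0
    have := Polynomial.derivative_eq_zero.1 h0
    omega
  have hlt : f.derivative.natDegree < f.natDegree := natDegree_derivative_lt (by omega)
  have hroot : ∀ z : R, aeval z f.derivative = 0 → (minpoly K z).natDegree < f.natDegree := by
    intro z hz
    exact lt_of_le_of_lt (natDegree_le_of_dvd (minpoly.dvd K z hz) hf') hlt
  set g := f.map (algebraMap K R) with hg
  have hgd : g.derivative = f.derivative.map (algebraMap K R) := derivative_map f _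
  have hg' : g.derivative ≠ 0 := by
    rw [hgd]
    exact Polynomial.map_ne_zero hf'
  have hgz : ∀ z, g.derivative.eval z = 0 → ¬ Gap K z := by
    intro z hz
    apply hmin
    apply hroot
    rw [aeval_def, ← eval_map, ← hgd]
    exact hz
  have hga : g.derivative.eval a ≠ 0 := fun h0 => hgz a h0 ha
  set Z := g.derivative.roots.toFinset with hZ
  have hZm : ∀ z, z ∈ Z ↔ g.derivative.eval z = 0 := by
    intro z
    rw [hZ, Multiset.mem_toFinset, mem_roots hg', IsRoot]
  have hu : ∃ u : K, a < algebraMap K R u ∧ ∀ z ∈ Z, a < z → algebraMap K R u < z := by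
    rcases Pool.Agent.Helper716_Lang.RC.aux213_comp_right Z a with ⟨z, hz, hza, hmin'⟩ | h0
    · obtain ⟨x, hx1, hx2⟩ := left_of_not_gap (K := K) hm (hgz z ((hZm z).1 hz)) hza
      exact ⟨x, hx1, fun w hw haw => hx2.trans_le (hmin' w hw haw)⟩
    · obtain ⟨b, hb⟩ := cofinal (K := K) hm a
      exact ⟨b, hb, fun w hw haw => absurd haw (h0 w hw)⟩
  have hl : ∃ l : K, algebraMap K R l < a ∧ ∀ z ∈ Z, z < a → z < algebraMap K R l := by
    rcases Pool.Agent.Helper716_Lang.RC.aux213_comp_left Z a with ⟨z, hz, hza, hmax⟩ | h0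
    · obtain ⟨x, hx1, hx2⟩ := right_of_not_gap (K := K) hm (hgz z ((hZm z).1 hz)) hza
      exact ⟨x, hx2, fun w hw haw => (hmax w hw haw).trans_lt hx1⟩
    · obtain ⟨b, hb⟩ := cofinal (K := K) hm (-a)
      refine ⟨-b, ?_, fun w hw haw => absurd haw (h0 w hw)⟩
      rw [map_neg]
      linarith
  obtain ⟨u, hu1, hu2⟩ := hu
  obtain ⟨l, hl1, hl2⟩ := hl
  have hstrict := Pool.Agent.Helper716_Lang.RC.strict_of_deriv g
    (a := algebraMap K R l) (b := algebraMap K R u) (by
      intro t ht1 ht2 ht3
      have htZ := (hZm t).2 ht3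
      rcases lt_trichotomy t a with h1 | h1 | h1
      · exact absurd (hl2 t htZ h1) (not_lt.2 ht1.le)
      · rw [h1] at ht3
        exact hga ht3
      · exact absurd (hu2 t htZ h1) (not_lt.2 ht2.le))
  have hga0 : g.eval a = 0 := by
    rw [hg, eval_map, ← aeval_def]
    exact minpoly.aeval K a
  have haI : a ∈ Icc (algebraMap K R l) (algebraMap K R u) := ⟨hl1.le, hu1.le⟩
  have hlI : algebraMap K R l ∈ Icc (algebraMap K R l) (algebraMap K R u) :=
    ⟨le_rfl, (hl1.trans hu1).le⟩
  have hev : ∀ x : K, g.eval (algebraMap K R x) = algebraMap K R (f.eval x) := by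
    intro x
    rw [hg, eval_map, eval₂_at_apply]
  have hpos : ∀ x : K, 0 < f.eval x * f.eval l ↔
      0 < g.eval (algebraMap K R x) * g.eval (algebraMap K R l) := by
    intro x
    rw [hev, hev, ← map_mul, ← hm.lt_iff_lt (b := f.eval x * f.eval l), map_zero]
  refine ⟨f, l, u, a, ha, fun x => ?_⟩
  rcases lt_or_ge x l with h1 | h1
  · simp only [h1, true_or, true_iff]
    exact (hm h1).trans hl1
  rcases le_or_gt x u with h2 | h2
  · simp only [not_lt.2 h1, false_or, h2, true_and]
    have hxI : algebraMap K R x ∈ Icc (algebraMap K R l) (algebraMap K R u) :=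
      ⟨hm.monotone h1, hm.monotone h2⟩
    rw [hpos]
    rcases hstrict with hs | hs
    · have e1 : g.eval (algebraMap K R l) < 0 := by
        have := hs hlI haI hl1
        simpa [hga0] using this
      constructor
      · intro h3
        have h4 : g.eval (algebraMap K R x) < 0 := by
          by_contra h5
          push Not at h5
          nlinarith
        have h5 : g.eval (algebraMap K R x) < g.eval a := by rw [hga0]; exact h4
        exact (hs.lt_iff_lt hxI haI).1 h5
      · intro h3
        have h4 : g.eval (algebraMap K R x) < g.eval a := hs hxI haI h3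
        rw [hga0] at h4
        exact mul_pos_of_neg_of_neg h4 e1
    · have e1 : 0 < g.eval (algebraMap K R l) := by
        have := hs hlI haI hl1
        simpa [hga0] using this
      constructor
      · intro h3
        have h4 : 0 < g.eval (algebraMap K R x) := by
          by_contra h5
          push Not at h5
          nlinarith
        have h5 : g.eval a < g.eval (algebraMap K R x) := by rw [hga0]; exact h4
        exact (hs.lt_iff_gt haI hxI).1 h5
      · intro h3
        have h4 : g.eval a < g.eval (algebraMap K R x) := hs hxI haI h3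
        rw [hga0] at h4
        exact mul_pos h4 e1
  · simp only [not_lt.2 h1, not_le.2 h2, false_and, or_false, false_iff, not_lt]
    exact (hu1.trans (hm h2)).le

end Pool.Agent.T9h43.NF
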