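import Pool.Agent.T9h43.NF.Defin
import Pool.Agent.T9h43.NF.Dense

set_option autoImplicit false

/-!
# Orderings with a definable bounded neighbourhood of zero
-/

namespace Pool.Agent.T9h43.NF

open FirstOrder FirstOrder.Language Pool.Agent.N616.NH Pool.Agent.N616.NV
  Pool.Agent.N616.NH.DFB_ Pool.Agent.N616.NH.DFA_ Pool.Agent.N616.NV.VD_

section one

variable {K : Type} [Field K] [LinearOrder K] [IsStrictOrderedRing K]
  [FirstOrder.Ring.CompatibleRing K]

/-- a definable convex valuation ring, not `K` -/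
def HasConvex (K : Type) [Field K] [LinearOrder K] [FirstOrder.Ring.CompatibleRing K] : Prop :=
  ∃ A : ValuationSubring K, A ≠ ⊤ ∧ Dfb A ∧ ∀ x y : K, |x| ≤ |y| → y ∈ A → x ∈ A

theorem dense_squares {U : Set K} (hU : DfS U) (hU1 : ∀ x, |x| ≤ 1 / 2 → x ∈ U)
    (hU2 : ∀ x ∈ U, |x| < 2) (h : ¬ HasConvex K) (c : K) (hc : 0 < c) (e : K) (he : 0 < e) :
    ∃ y : K, |y ^ 2 - c| < e := by
  by_contra hcon
  push Not at hcon
  exact h (stepA hU hU1 hU2 hc he hcon)

theorem dense_closure (hP : DfS {x : K | 0 ≤ x}) (h : ¬ HasConvex K) (R : Type) [Field R]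
    [LinearOrder R] [IsStrictOrderedRing R] [IsRealClosed R] [Algebra K R]
    [Algebra.IsAlgebraic K R] (hm : StrictMono (algebraMap K R)) (a b : R) (hab : a < b) :
    ∃ x : K, a < algebraMap K R x ∧ algebraMap K R x < b := by
  by_contra hcon
  push Not at hcon
  obtain ⟨e, he, h1⟩ := coinitial (K := K) hm (show 0 < (b - a) / 2 by linarith)
  have hgap : Gap K ((a + b) / 2) := by
    refine ⟨e, he, fun x => ?_⟩
    rcases le_or_gt (algebraMap K R x) a with h2 | h2
    · rw [abs_of_nonpos (by linarith)]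
      linarith
    · have h3 := hcon x h2
      rw [abs_of_nonneg (by linarith)]
      linarith
  obtain ⟨f, l, u, r, ⟨d, hd, hr⟩, hf⟩ := exists_cut (K := K) hm ⟨_, hgap⟩
  set D : Set K := {x | algebraMap K R x < r} with hD
  apply h
  have hDD : DfS D := by
    apply dfS_of_dfK
    have e1 : {w : Fin 1 → K | w 0 ∈ D} = {w : Fin 1 → K | ¬ (w 0 - l ∈ {x : K | 0 ≤ x}) ∨
        (u - w 0 ∈ {x : K | 0 ≤ x} ∧ ¬ (-(f.eval (w 0) * f.eval l) ∈ {x : K | 0 ≤ x}))} := by
      ext w
      simp only [Set.mem_ofPred_eq, hD]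
      rw [← hf (w 0)]
      constructor
      · rintro (h2 | ⟨h2, h3⟩)
        · left; intro h4; linarith
        · right; exact ⟨by linarith, fun h4 => by linarith⟩
      · rintro (h2 | ⟨h2, h3⟩)
        · left; push Not at h2; linarith
        · right; push Not at h3; exact ⟨by linarith, by linarith⟩
    rw [e1]
    refine dfK_or (dfK_not (dfk_substU hP (tm_sub (Tm.var _) (Tm.const l))))
      (dfK_and (dfk_substU hP (tm_sub (Tm.const u) (Tm.var _)))
        (dfK_not (dfk_substU hP (tm_neg ((tm_eval (Tm.var _) f).mul (Tm.const (f.eval l)))))))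
  refine stepC hDD ?_ ?_ ?_ (e := d / 2) (by linarith) ?_
  · intro x y hxy hy
    exact (hm.monotone hxy).trans_lt hy
  · obtain ⟨z, hz⟩ := cofinal (K := K) hm (-r)
    refine ⟨-z, ?_⟩
    show algebraMap K R (-z) < r
    rw [map_neg]
    linarith
  · obtain ⟨z, hz⟩ := cofinal (K := K) hm r
    exact ⟨z, fun h2 => lt_asymm hz h2⟩
  · intro x hx
    have hx' : algebraMap K R x < r := hx
    show algebraMap K R (x + d / 2) < r
    have h2 := hr x
    rw [abs_of_neg (by linarith)] at h2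
    rw [map_add]
    have e1 : algebraMap K R (d / 2) + algebraMap K R (d / 2) = algebraMap K R d := by
      rw [← map_add, add_halves]
    have h3 : 0 < algebraMap K R (d / 2) := by
      rw [← map_zero (algebraMap K R)]
      exact hm (by linarith)
    linarith

theorem dichotomy {U : Set K} (hU : DfS U) (hU1 : ∀ x, |x| ≤ 1 / 2 → x ∈ U)
    (hU2 : ∀ x ∈ U, |x| < 2) :
    (∃ A : ValuationSubring K, A ≠ ⊤ ∧ Dfb A ∧ ∀ x y : K, |x| ≤ |y| → y ∈ A → x ∈ A) ∨
    (DfS {x : K | 0 ≤ x} ∧ ∀ (R : Type) [Field R] [LinearOrder R] [IsStrictOrderedRing R]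
      [IsRealClosed R] [Algebra K R] [Algebra.IsAlgebraic K R], StrictMono (algebraMap K R) →
      ∀ a b : R, a < b → ∃ x : K, a < algebraMap K R x ∧ algebraMap K R x < b) := by
  by_cases h : HasConvex K
  · exact Or.inl h
  · right
    have hP := stepB hU hU1 hU2 (dense_squares hU hU1 hU2 h)
    refine ⟨hP, ?_⟩
    intro R _ _ _ _ _ _ hm a b hab
    exact dense_closure hP h R hm a b hab

end one

/-- comparison of two orderings -/
theorem pos_transfer {A B : Type} [Field A] [LinearOrder A] [IsStrictOrderedRing A] [Field B]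
    [LinearOrder B] [IsStrictOrderedRing B] (φ : A →+* B)
    (hd : ∀ c : A, 0 < c → ∀ e : A, 0 < e → ∃ y : A, |y ^ 2 - c| < e)
    (hc : ∀ x : A, -1 < x → x < 1 → -2 < φ x ∧ φ x < 2) (x : A) (hx : 0 ≤ x) : 0 ≤ φ x := by
  by_contra hcon
  push Not at hcon
  have hx0 : 0 < x := by
    rcases hx.eq_or_lt with h | h
    · rw [← h, map_zero] at hcon
      exact absurd hcon (lt_irrefl _)
    · exact h
  obtain ⟨y, hy⟩ := hd x hx0 (x / 4) (by linarith)
  have h1 : |(y ^ 2 - x) / (x / 4)| < 1 := by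
    rw [abs_div, abs_of_pos (show 0 < x / 4 by linarith), div_lt_one (by linarith)]
    exact hy
  obtain ⟨h2, h3⟩ := abs_lt.1 h1
  obtain ⟨h4, h5⟩ := hc _ h2 h3
  have e1 : φ ((y ^ 2 - x) / (x / 4)) = (φ y ^ 2 - φ x) / (φ x / 4) := by
    rw [map_div₀, map_sub, map_pow, map_div₀, map_ofNat]
  rw [e1] at h4 h5
  rw [lt_div_iff_of_neg (by linarith)] at h4
  have := sq_nonneg (φ y)
  linarith

end Pool.Agent.T9h43.NF
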