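import Mathlib

set_option autoImplicit false

/-!
# Convex subgroups of an ordered field which come from gaps in the squares
-/

namespace Pool.Agent.T9h43.NF

variable {K : Type} [Field K] [LinearOrder K] [IsStrictOrderedRing K]

/-- a convex additive subgroup, neither zero nor everything -/
structure Cvx (I : Set K) : Prop where
  add : ∀ x y, x ∈ I → y ∈ I → x + y ∈ I
  cvx : ∀ x y, |x| ≤ |y| → y ∈ I → x ∈ I
  ne : ∃ x ∈ I, x ≠ 0
  proper : ∃ x, x ∉ I

/-- the multipliers of a convex subgroup -/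
def stab (I : Set K) (h : Cvx I) : ValuationSubring K where
  carrier := {x | ∀ y ∈ I, x * y ∈ I}
  mul_mem' := by
    intro a b ha hb y hy
    rw [mul_assoc]
    exact ha _ (hb _ hy)
  one_mem' := by
    intro y hy
    rwa [one_mul]
  add_mem' := by
    intro a b ha hb y hy
    rw [add_mul]
    exact h.add _ _ (ha _ hy) (hb _ hy)
  zero_mem' := by
    intro y hy
    rw [zero_mul]
    exact h.cvx 0 y (by rw [abs_zero]; exact abs_nonneg y) hy
  neg_mem' := by
    intro a ha y hy
    exact h.cvx _ (a * y) (by rw [neg_mul, abs_neg]) (ha _ hy)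
  mem_or_inv_mem' := by
    intro x
    rcases le_total |x| 1 with h1 | h1
    · left
      intro y hy
      refine h.cvx _ y ?_ hy
      rw [abs_mul]
      exact mul_le_of_le_one_left (abs_nonneg y) h1
    · right
      intro y hy
      refine h.cvx _ y ?_ hy
      rw [abs_mul, abs_inv]
      exact mul_le_of_le_one_left (abs_nonneg y) (inv_le_one_of_one_le₀ h1)

theorem mem_stab {I : Set K} {h : Cvx I} {x : K} : x ∈ stab I h ↔ ∀ y ∈ I, x * y ∈ I := Iff.rfl

theorem stab_ne_top {I : Set K} (h : Cvx I) : stab I h ≠ ⊤ := by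
  intro htop
  obtain ⟨y, hy, hy0⟩ := h.ne
  obtain ⟨z, hz⟩ := h.proper
  have h1 : z / y ∈ stab I h := by rw [htop]; trivial
  apply hz
  have := mem_stab.1 h1 y hy
  rwa [div_mul_cancel₀ _ hy0] at this

theorem stab_cvx {I : Set K} (h : Cvx I) (x y : K) (hxy : |x| ≤ |y|) (hy : y ∈ stab I h) :
    x ∈ stab I h := by
  intro z hz
  refine h.cvx _ (y * z) ?_ (hy z hz)
  rw [abs_mul, abs_mul]
  exact mul_le_mul_of_nonneg_right hxy (abs_nonneg z)

section gap

variable (c : K)

/-- no square lies in the interval from `c / z` to `c z` -/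
def J (z : K) : Prop := 1 ≤ z ∧ ∀ y : K, ¬ (c ≤ y ^ 2 * z ∧ y ^ 2 ≤ c * z)

variable {c}

theorem J.le {z z' : K} (hc : 0 < c) (h : J c z) (h1 : 1 ≤ z') (h2 : z' ≤ z) : J c z' := by
  refine ⟨h1, fun y hy => h.2 y ⟨hy.1.trans ?_, hy.2.trans ?_⟩⟩
  · exact mul_le_mul_of_nonneg_left h2 (sq_nonneg y)
  · exact mul_le_mul_of_nonneg_left h2 hc.le

theorem J.sq {z : K} (hc : 0 < c) (h : J c z) : J c (z * z) := by
  have hz : 0 < z := by linarith [h.1]
  refine ⟨by nlinarith [h.1], fun y hy => ?_⟩
  rcases le_or_gt (y ^ 2) (c * z) with h1 | h1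
  · rcases le_or_gt c (y ^ 2 * z) with h2 | h2
    · exact h.2 y ⟨h2, h1⟩
    · refine h.2 (y * z) ⟨?_, ?_⟩
      · have e : (y * z) ^ 2 * z = y ^ 2 * (z * z) * z := by ring
        rw [e]
        nlinarith [h.1, hy.1]
      · have e : (y * z) ^ 2 = (y ^ 2 * z) * z := by ring
        rw [e]
        exact mul_le_mul_of_nonneg_right h2.le hz.le
  · refine h.2 (y / z) ⟨?_, ?_⟩
    · have e : (y / z) ^ 2 * z = y ^ 2 / z := by field_simp
      rw [e, le_div_iff₀ hz]
      exact h1.le
    · have e : (y / z) ^ 2 = y ^ 2 / (z * z) := by field_simp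
      rw [e, div_le_iff₀ (mul_pos hz hz)]
      have h3 : c * z * (z * z) = (c * (z * z)) * z := by ring
      rw [h3]
      have h4 : 0 ≤ c * (z * z) := by positivity
      nlinarith [h.1, hy.2]

theorem J.mul {z z' : K} (hc : 0 < c) (h : J c z) (h' : J c z') : J c (z * z') := by
  rcases le_total z z' with h1 | h1
  · refine (h'.sq hc).le hc (by nlinarith [h.1, h'.1]) ?_
    exact mul_le_mul_of_nonneg_right h1 (by linarith [h'.1])
  · refine (h.sq hc).le hc (by nlinarith [h.1, h'.1]) ?_
    exact mul_le_mul_of_nonneg_left h1 (by linarith [h.1])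

/-- there is a gap -/
theorem J.exists (hc : 0 < c) {e : K} (he : 0 < e) (h : ∀ y : K, e ≤ |y ^ 2 - c|) :
    ∃ d : K, 0 < d ∧ J c (1 + d) := by
  refine ⟨e / (2 * c), by positivity, ?_⟩
  have hd : 0 < e / (2 * c) := by positivity
  have hcd : c * (e / (2 * c)) = e / 2 := by field_simp
  refine ⟨by linarith, fun y hy => ?_⟩
  have h1 := h y
  have h2 : y ^ 2 ≤ c + e / 2 := by
    have := hy.2
    rw [mul_add, mul_one, hcd] at this
    exact this
  have h3 : c - e / 2 ≤ y ^ 2 := by
    by_contra h4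
    push Not at h4
    have h5 := hy.1
    have h6 : y ^ 2 * (1 + e / (2 * c)) < c := by
      rcases le_or_gt (c - e / 2) 0 with h7 | h7
      · linarith [sq_nonneg y]
      · calc y ^ 2 * (1 + e / (2 * c)) < (c - e / 2) * (1 + e / (2 * c)) :=
              mul_lt_mul_of_pos_right h4 (by linarith)
          _ = c - (e / 2) * (e / (2 * c)) := by
              have : (c - e / 2) * (1 + e / (2 * c)) = c - e / 2 + c * (e / (2 * c)) -
                (e / 2) * (e / (2 * c)) := by ring
              rw [this, hcd]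
              ring
          _ ≤ c := by
              have : 0 ≤ (e / 2) * (e / (2 * c)) := by positivity
              linarith
    linarith
  have h4 : |y ^ 2 - c| ≤ e / 2 := abs_le.2 ⟨by linarith, by linarith⟩
  linarith

theorem J.not_large (hc : 0 < c) : ¬ J c (max 1 (max c c⁻¹)) := by
  intro h
  refine h.2 1 ⟨?_, ?_⟩
  · rw [one_pow, one_mul]
    exact (le_max_left _ _).trans (le_max_right _ _)
  · rw [one_pow]
    have h1 : c⁻¹ ≤ max 1 (max c c⁻¹) := (le_max_right _ _).trans (le_max_right _ _)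
    calc (1 : K) = c * c⁻¹ := (mul_inv_cancel₀ hc.ne').symm
      _ ≤ _ := mul_le_mul_of_nonneg_left h1 hc.le

/-- the first subgroup -/
def I1 (c : K) : Set K := {x | J c (1 + |x|)}

/-- the second subgroup -/
def I2 (c : K) : Set K := {x | ∃ z, J c z ∧ |x| ≤ z}

theorem cvx1 (hc : 0 < c) {e : K} (he : 0 < e) (h : ∀ y : K, e ≤ |y ^ 2 - c|) (h2 : ¬ J c 2) :
    Cvx (I1 c) where
  add := by
    intro x y hx hy
    show J c (1 + |x + y|)
    refine ((J.mul hc hx hy)).le hc (by linarith [abs_nonneg (x + y)]) ?_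
    have h1 := abs_add_le x y
    have h3 : 0 ≤ |x| * |y| := by positivity
    nlinarith
  cvx := by
    intro x y hxy hy
    exact J.le hc hy (by linarith [abs_nonneg x]) (by linarith)
  ne := by
    obtain ⟨d, hd, h3⟩ := J.exists hc he h
    refine ⟨d, ?_, hd.ne'⟩
    show J c (1 + |d|)
    rwa [abs_of_pos hd]
  proper := by
    refine ⟨1, fun h3 => h2 ?_⟩
    have h4 : J c (1 + |1|) := h3
    rwa [abs_one, one_add_one_eq_two] at h4

theorem cvx2 (hc : 0 < c) (h2 : J c 2) : Cvx (I2 c) where
  add := by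
    rintro x y ⟨z, hz, hxz⟩ ⟨z', hz', hyz⟩
    refine ⟨2 * (z * z'), J.mul hc h2 (J.mul hc hz hz'), ?_⟩
    have h1 := abs_add_le x y
    have e1 := hz.1
    have e2 := hz'.1
    have e3 : z ≤ z * z' := le_mul_of_one_le_right (by linarith) e2
    have e4 : z' ≤ z * z' := le_mul_of_one_le_left (by linarith) e1
    linarith
  cvx := by
    rintro x y hxy ⟨z, hz, hyz⟩
    exact ⟨z, hz, hxy.trans hyz⟩
  ne := ⟨1, ⟨2, h2, by rw [abs_one]; exact one_le_two⟩, one_ne_zero⟩
  proper := by
    refine ⟨max 1 (max c c⁻¹), ?_⟩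
    rintro ⟨z, hz, h1⟩
    apply J.not_large hc
    have h3 : (1 : K) ≤ max 1 (max c c⁻¹) := le_max_left _ _
    rw [abs_of_nonneg (by linarith)] at h1
    exact hz.le hc h3 h1

/-- the first subgroup from an approximation `U` of the interval from `-1` to `1` -/
theorem mem_I1 (hc : 0 < c) {e : K} (he : 0 < e) (h : ∀ y : K, e ≤ |y ^ 2 - c|) (h2 : ¬ J c 2)
    {U : Set K} (hU1 : ∀ x, |x| ≤ 1 / 2 → x ∈ U) (hU2 : ∀ x ∈ U, |x| < 2) (x : K) :
    x ∈ I1 c ↔ ∀ y t : K, y ^ 2 - c = c * x * t → t ∉ U := by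
  have hC := cvx1 hc he h h2
  constructor
  · intro hx y t hyt ht
    have ht2 := hU2 t ht
    have h4x : (4 * x) ∈ I1 c := by
      have e1 := hC.add _ _ hx hx
      have e2 := hC.add _ _ e1 e1
      have e3 : x + x + (x + x) = 4 * x := by ring
      rwa [e3] at e2
    have h5 : |4 * x| < 1 := by
      by_contra hcon
      push Not at hcon
      have h6 : (1 : K) ∈ I1 c := hC.cvx 1 (4 * x) (by rwa [abs_one]) h4x
      have h7 : J c (1 + |1|) := h6
      rw [abs_one, one_add_one_eq_two] at h7
      exact h2 h7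
    have h6 : |4 * x| = 4 * |x| := by rw [abs_mul]; norm_num
    rw [h6] at h5
    have h7 : |y ^ 2 - c| ≤ c * |x| * 2 := by
      rw [hyt, abs_mul, abs_mul, abs_of_pos hc]
      exact mul_le_mul_of_nonneg_left ht2.le (by positivity)
    have h8 : J c (1 + |4 * x|) := h4x
    rw [h6] at h8
    obtain ⟨h9, h10⟩ := abs_le.1 h7
    have h0 := abs_nonneg x
    refine h8.2 y ⟨?_, ?_⟩
    · have e1 : c * (1 - 2 * |x|) ≤ y ^ 2 := by linarith
      have e2 : c ≤ c * (1 - 2 * |x|) * (1 + 4 * |x|) := by
        have : c * (1 - 2 * |x|) * (1 + 4 * |x|) = c + c * (2 * |x| * (1 - 4 * |x|)) := by ring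
        rw [this]
        have : 0 ≤ c * (2 * |x| * (1 - 4 * |x|)) :=
          mul_nonneg hc.le (mul_nonneg (by positivity) (by linarith))
        linarith
      exact e2.trans (mul_le_mul_of_nonneg_right e1 (by linarith))
    · nlinarith [mul_nonneg hc.le h0]
  · intro hx
    by_contra hcon
    have h3 : x / 2 ∉ I1 c := by
      intro h4
      apply hcon
      have := hC.add _ _ h4 h4
      rwa [add_halves] at this
    have h3' : ¬ J c (1 + |x / 2|) := h3
    unfold J at h3'
    push Not at h3'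
    obtain ⟨y, hy1, hy2⟩ := h3' (by linarith [abs_nonneg (x / 2)])
    have hx0 : x ≠ 0 := by
      rintro rfl
      apply h3
      obtain ⟨z, hz, -⟩ := hC.ne
      exact hC.cvx _ z (by simp) hz
    have hxa : 0 < |x| := abs_pos.2 hx0
    have e0 : |x / 2| = |x| / 2 := by rw [abs_div]; norm_num
    rw [e0] at hy1 hy2
    have h4 : |y ^ 2 - c| ≤ c * (|x| / 2) := by
      rw [abs_le]
      constructor
      · have : c - y ^ 2 ≤ c * (|x| / 2) := by
          by_contra hh
          push Not at hh
          have h5 : y ^ 2 < c * (1 - |x| / 2) := by linarith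
          have h6 : y ^ 2 * (1 + |x| / 2) < c := by
            calc y ^ 2 * (1 + |x| / 2) < c * (1 - |x| / 2) * (1 + |x| / 2) :=
                  mul_lt_mul_of_pos_right h5 (by linarith)
              _ = c - c * (|x| / 2) ^ 2 := by ring
              _ ≤ c := by
                  have : 0 ≤ c * (|x| / 2) ^ 2 := by positivity
                  linarith
          linarith
        linarith
      · linarith
    refine hx y ((y ^ 2 - c) / (c * x)) ?_ ?_
    · field_simp
    · apply hU1
      rw [abs_div, abs_mul, abs_of_pos hc, div_le_iff₀ (by positivity)]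
      linarith

/-- the second subgroup from an approximation `U` of the interval from `-1` to `1` -/
theorem mem_I2 (hc : 0 < c) (h2 : J c 2)
    {U : Set K} (hU1 : ∀ x, |x| ≤ 1 / 2 → x ∈ U) (hU2 : ∀ x ∈ U, |x| < 2) (x : K) :
    x ∈ I2 c ↔ ∀ y s t : K, y ^ 2 = c * x * s → c = y ^ 2 * x * t → ¬ (s ∈ U ∧ t ∈ U) := by
  constructor
  · rintro ⟨z, hz, hxz⟩ y s t hs ht ⟨hsU, htU⟩
    have hs2 := hU2 s hsU
    have ht2 := hU2 t htU
    have hz0 : 0 < z := by linarith [hz.1]
    refine (J.mul hc h2 hz).2 y ⟨?_, ?_⟩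
    · have e1 : c = y ^ 2 * (|x| * |t|) := by
        have : |c| = |y ^ 2 * x * t| := congrArg _ ht
        rw [abs_of_pos hc, abs_mul, abs_mul, abs_of_nonneg (sq_nonneg y), mul_assoc] at this
        exact this
      rw [e1]
      apply mul_le_mul_of_nonneg_left _ (sq_nonneg y)
      calc |x| * |t| ≤ z * 2 := mul_le_mul hxz ht2.le (abs_nonneg t) hz0.le
        _ = 2 * z := by ring
    · have e1 : y ^ 2 = c * (|x| * |s|) := by
        have : |y ^ 2| = |c * x * s| := congrArg _ hs
        rw [abs_of_nonneg (sq_nonneg y), abs_mul, abs_mul, abs_of_pos hc, mul_assoc] at this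
        exact this
      rw [e1]
      apply mul_le_mul_of_nonneg_left _ hc.le
      calc |x| * |s| ≤ z * 2 := mul_le_mul hxz hs2.le (abs_nonneg s) hz0.le
        _ = 2 * z := by ring
  · intro hx
    by_contra hcon
    have hno : ∀ z, J c z → z < |x| := by
      intro z hz
      by_contra h3
      push Not at h3
      exact hcon ⟨z, hz, h3⟩
    have h4 : J c 4 := by
      have := J.mul hc h2 h2
      have e : (2 : K) * 2 = 4 := by norm_num
      rwa [e] at this
    have h5 : 4 < |x| := hno 4 h4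
    have hx0 : x ≠ 0 := by
      rintro rfl
      rw [abs_zero] at h5
      linarith
    have h6 : ¬ J c (|x| / 4) := by
      intro h7
      have h8 := J.mul hc h4 h7
      have e : 4 * (|x| / 4) = |x| := by ring
      rw [e] at h8
      exact lt_irrefl _ (hno _ h8)
    unfold J at h6
    push Not at h6
    obtain ⟨y, hy1, hy2⟩ := h6 (by linarith)
    have hy0 : 0 < y ^ 2 := by
      by_contra h7
      push Not at h7
      have h8 : y ^ 2 = 0 := le_antisymm h7 (sq_nonneg y)
      rw [h8, zero_mul] at hy1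
      linarith
    have hxa : 0 < |x| := abs_pos.2 hx0
    refine hx y (y ^ 2 / (c * x)) (c / (y ^ 2 * x)) ?_ ?_ ⟨hU1 _ ?_, hU1 _ ?_⟩
    · field_simp
    · exact (mul_div_cancel₀ c (mul_ne_zero hy0.ne' hx0)).symm
    · rw [abs_div, abs_mul, abs_of_pos hc, abs_of_pos hy0, div_le_iff₀ (by positivity)]
      have : 0 < c * |x| := by positivity
      linarith
    · rw [abs_div, abs_mul, abs_of_pos hc, abs_of_pos hy0, div_le_iff₀ (by positivity)]
      have : 0 < y ^ 2 * |x| := by positivity
      linarith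

end gap

end Pool.Agent.T9h43.NF
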