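import Pool.Agent.N616.NV.VD
import Pool.Agent.T9h43.NF.Gap

set_option autoImplicit false

/-!
# Definability of the convex subgroups and their valuation rings
-/

namespace Pool.Agent.T9h43.NF

open FirstOrder FirstOrder.Language Pool.Agent.N616.NH Pool.Agent.N616.NV
  Pool.Agent.N616.NH.DFB_ Pool.Agent.N616.NH.DFA_ Pool.Agent.N616.NV.VD_

section tools

variable {K : Type} [Field K] [FirstOrder.Ring.CompatibleRing K]

theorem dfS_of_dfK {U : Set K} (h : DfK {u : Fin 1 → K | u 0 ∈ U}) : DfS U := by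
  obtain ⟨p, ψ, c, hc⟩ := h
  exact ⟨p, ψ, c, fun x => hc fun _ => x⟩

theorem dfK_ex {α : Type} (m : ℕ) {Φ : (α → K) → (Fin m → K) → Prop}
    (h : DfK {w : α ⊕ Fin m → K | Φ (fun i => w (Sum.inl i)) (fun j => w (Sum.inr j))}) :
    DfK {u : α → K | ∃ y : Fin m → K, Φ u y} := dfK_proj h

theorem dfK_not {α : Type} {Φ : (α → K) → Prop} (h : DfK {u : α → K | Φ u}) :
    DfK {u : α → K | ¬ Φ u} := dfK_compl h

theorem dfK_and {α : Type} {Φ Ψ : (α → K) → Prop} (h : DfK {u : α → K | Φ u})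
    (h' : DfK {u : α → K | Ψ u}) : DfK {u : α → K | Φ u ∧ Ψ u} := dfK_inter h h'

theorem dfK_imp {α : Type} {Φ Ψ : (α → K) → Prop} (h : DfK {u : α → K | Φ u})
    (h' : DfK {u : α → K | Ψ u}) : DfK {u : α → K | Φ u → Ψ u} := by
  have h1 := dfK_not (dfK_and h (dfK_not h'))
  have e : {u : α → K | Φ u → Ψ u} = {u : α → K | ¬ (Φ u ∧ ¬ Ψ u)} := by
    ext u
    simp
  rw [e]
  exact h1

theorem dfK_or {α : Type} {Φ Ψ : (α → K) → Prop} (h : DfK {u : α → K | Φ u})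
    (h' : DfK {u : α → K | Ψ u}) : DfK {u : α → K | Φ u ∨ Ψ u} := by
  have h1 := dfK_imp (dfK_not h) h'
  have e : {u : α → K | Φ u ∨ Ψ u} = {u : α → K | ¬ Φ u → Ψ u} := by
    ext u
    simp only [Set.mem_ofPred_eq]
    tauto
  rw [e]
  exact h1

theorem dfK_forall {α : Type} (m : ℕ) {Φ : (α → K) → (Fin m → K) → Prop}
    (h : DfK {w : α ⊕ Fin m → K | Φ (fun i => w (Sum.inl i)) (fun j => w (Sum.inr j))}) :
    DfK {u : α → K | ∀ y : Fin m → K, Φ u y} := by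
  have h1 := dfK_not (dfK_ex m (Φ := fun u y => ¬ Φ u y) (dfK_not h))
  have e : {u : α → K | ∀ y : Fin m → K, Φ u y} = {u : α → K | ¬ ∃ y : Fin m → K, ¬ Φ u y} := by
    ext u
    simp
  rw [e]
  exact h1

theorem tm_neg {α : Type} {F : (α → K) → K} (hF : Tm F) : Tm (fun u => -F u) := by
  have := (Tm.const (α := α) (-1 : K)).mul hF
  simpa using this

theorem tm_sub {α : Type} {F G : (α → K) → K} (hF : Tm F) (hG : Tm G) :
    Tm (fun u => F u - G u) := by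
  simpa only [sub_eq_add_neg] using hF.add (tm_neg hG)

theorem tm_pow {α : Type} {F : (α → K) → K} (hF : Tm F) (n : ℕ) : Tm (fun u => F u ^ n) := by
  induction n with
  | zero => simpa using Tm.const (α := α) (1 : K)
  | succ n ih => simpa only [pow_succ] using ih.mul hF

theorem tm_eval {α : Type} {F : (α → K) → K} (hF : Tm F) (f : Polynomial K) :
    Tm (fun u => f.eval (F u)) := by
  have h1 : Tm (fun u => ∑ k ∈ Finset.range (f.natDegree + 1), f.coeff k * F u ^ k) :=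
    Tm.sum _ fun k => (Tm.const (f.coeff k)).mul (tm_pow hF k)
  simpa only [Polynomial.eval_eq_sum_range] using h1

end tools

variable {K : Type} [Field K] [LinearOrder K] [IsStrictOrderedRing K]
  [FirstOrder.Ring.CompatibleRing K]

theorem dfb_stab {I : Set K} (h : Cvx I) (hI : DfS I) : Dfb (stab I h) := by
  have h1 : DfK {u : Fin 1 → K | ∀ y : Fin 1 → K, y 0 ∈ I → u 0 * y 0 ∈ I} := by
    apply dfK_forall 1 (Φ := fun u y => y 0 ∈ I → u 0 * y 0 ∈ I)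
    exact dfK_imp (dfk_substU hI (Tm.var _)) (dfk_substU hI ((Tm.var _).mul (Tm.var _)))
  obtain ⟨p, ψ, c, hc⟩ := h1
  refine ⟨p, ψ, c, fun x => ?_⟩
  rw [← hc fun _ => x, mem_stab]
  constructor
  · intro h2 y hy
    exact h2 _ hy
  · intro h2 y hy
    exact h2 (fun _ => y) hy

/-- a definable convex subgroup gives a definable valuation ring -/
theorem of_cvx {I : Set K} (h : Cvx I) (hI : DfS I) :
    ∃ A : ValuationSubring K, A ≠ ⊤ ∧ Dfb A ∧ ∀ x y : K, |x| ≤ |y| → y ∈ A → x ∈ A :=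
  ⟨stab I h, stab_ne_top h, dfb_stab h hI, stab_cvx h⟩

/-- **Step A**: the squares are dense in the nonnegative elements, or there is a definable convex
valuation ring. -/
theorem stepA {U : Set K} (hU : DfS U) (hU1 : ∀ x, |x| ≤ 1 / 2 → x ∈ U) (hU2 : ∀ x ∈ U, |x| < 2)
    {c e : K} (hc : 0 < c) (he : 0 < e) (h : ∀ y : K, e ≤ |y ^ 2 - c|) :
    ∃ A : ValuationSubring K, A ≠ ⊤ ∧ Dfb A ∧ ∀ x y : K, |x| ≤ |y| → y ∈ A → x ∈ A := by
  by_cases h2 : J c 2
  · refine of_cvx (cvx2 hc h2) (dfS_of_dfK ?_)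
    have h1 : DfK {u : Fin 1 → K | ∀ y : Fin 3 → K, y 0 ^ 2 = c * u 0 * y 1 →
        (c = y 0 ^ 2 * u 0 * y 2 → ¬ (y 1 ∈ U ∧ y 2 ∈ U))} := by
      apply dfK_forall 3 (Φ := fun u y => y 0 ^ 2 = c * u 0 * y 1 →
        (c = y 0 ^ 2 * u 0 * y 2 → ¬ (y 1 ∈ U ∧ y 2 ∈ U)))
      refine dfK_imp (dfk_eq (tm_pow (Tm.var _) 2) (((Tm.const c).mul (Tm.var _)).mul (Tm.var _)))
        (dfK_imp (dfk_eq (Tm.const c) (((tm_pow (Tm.var _) 2).mul (Tm.var _)).mul (Tm.var _)))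
          (dfK_not (dfK_and (dfk_substU hU (Tm.var _)) (dfk_substU hU (Tm.var _)))))
    have e : {u : Fin 1 → K | u 0 ∈ I2 c} = {u : Fin 1 → K | ∀ y : Fin 3 → K,
        y 0 ^ 2 = c * u 0 * y 1 → (c = y 0 ^ 2 * u 0 * y 2 → ¬ (y 1 ∈ U ∧ y 2 ∈ U))} := by
      ext u
      simp only [Set.mem_ofPred_eq]
      rw [mem_I2 hc h2 hU1 hU2]
      constructor
      · intro h3 y
        exact h3 (y 0) (y 1) (y 2)
      · intro h3 y s t
        exact h3 ![y, s, t]
    rw [e]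
    exact h1
  · refine of_cvx (cvx1 hc he h h2) (dfS_of_dfK ?_)
    have h1 : DfK {u : Fin 1 → K | ∀ y : Fin 2 → K, y 0 ^ 2 - c = c * u 0 * y 1 → ¬ (y 1 ∈ U)} := by
      apply dfK_forall 2 (Φ := fun u y => y 0 ^ 2 - c = c * u 0 * y 1 → ¬ (y 1 ∈ U))
      exact dfK_imp (dfk_eq (tm_sub (tm_pow (Tm.var _) 2) (Tm.const c))
        (((Tm.const c).mul (Tm.var _)).mul (Tm.var _))) (dfK_not (dfk_substU hU (Tm.var _)))
    have e : {u : Fin 1 → K | u 0 ∈ I1 c} = {u : Fin 1 → K | ∀ y : Fin 2 → K,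
        y 0 ^ 2 - c = c * u 0 * y 1 → ¬ (y 1 ∈ U)} := by
      ext u
      simp only [Set.mem_ofPred_eq]
      rw [mem_I1 hc he h h2 hU1 hU2]
      constructor
      · intro h3 y
        exact h3 (y 0) (y 1)
      · intro h3 y t
        exact h3 ![y, t]
    rw [e]
    exact h1

/-- **Step B**: the ordering is definable. -/
theorem stepB {U : Set K} (hU : DfS U) (hU1 : ∀ x, |x| ≤ 1 / 2 → x ∈ U) (hU2 : ∀ x ∈ U, |x| < 2)
    (h : ∀ c : K, 0 < c → ∀ e : K, 0 < e → ∃ y : K, |y ^ 2 - c| < e) : DfS {x : K | 0 ≤ x} := by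
  apply dfS_of_dfK
  have h1 : DfK {u : Fin 1 → K | ∀ e : Fin 1 → K, ¬ (e 0 = 0) → ∃ y : Fin 2 → K,
      y 0 ^ 2 - u 0 = e 0 * y 1 ∧ y 1 ∈ U} := by
    apply dfK_forall 1 (Φ := fun u e => ¬ (e 0 = 0) → ∃ y : Fin 2 → K,
      y 0 ^ 2 - u 0 = e 0 * y 1 ∧ y 1 ∈ U)
    refine dfK_imp (dfK_not (dfk_eq (Tm.var _) (Tm.const 0))) ?_
    apply dfK_ex 2 (Φ := fun (w : Fin 1 ⊕ Fin 1 → K) y =>
      y 0 ^ 2 - w (Sum.inl 0) = w (Sum.inr 0) * y 1 ∧ y 1 ∈ U)
    exact dfK_and (dfk_eq (tm_sub (tm_pow (Tm.var _) 2) (Tm.var _)) ((Tm.var _).mul (Tm.var _)))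
      (dfk_substU hU (Tm.var _))
  have e : {u : Fin 1 → K | u 0 ∈ {x : K | 0 ≤ x}} = {u : Fin 1 → K | ∀ e : Fin 1 → K,
      ¬ (e 0 = 0) → ∃ y : Fin 2 → K, y 0 ^ 2 - u 0 = e 0 * y 1 ∧ y 1 ∈ U} := by
    ext u
    simp only [Set.mem_ofPred_eq]
    constructor
    · intro h0 e he
      obtain ⟨y, hy⟩ : ∃ y : K, |y ^ 2 - u 0| ≤ |e 0| / 2 := by
        rcases h0.eq_or_lt with h2 | h2
        · refine ⟨0, ?_⟩
          rw [← h2]
          simp only [ne_eq, OfNat.ofNat_ne_zero, not_false_eq_true, zero_pow, sub_self, abs_zero]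
          positivity
        · obtain ⟨y, hy⟩ := h _ h2 (|e 0| / 2) (by positivity)
          exact ⟨y, hy.le⟩
      refine ⟨![y, (y ^ 2 - u 0) / e 0], ?_, hU1 _ ?_⟩
      · simp only [Matrix.cons_val_zero, Matrix.cons_val_one]
        field_simp
      · simp only [Matrix.cons_val_one, Matrix.cons_val_fin_one]
        rw [abs_div, div_le_iff₀ (abs_pos.2 he)]
        linarith
    · intro h0
      by_contra hcon
      push Not at hcon
      obtain ⟨y, hy1, hy2⟩ := h0 (fun _ => u 0 / 4) (by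
        intro h3
        have : u 0 = 0 := by linarith
        linarith)
      have h3 := hU2 _ hy2
      have h4 : |y 0 ^ 2 - u 0| < -u 0 := by
        rw [hy1, abs_mul, abs_div, abs_of_neg hcon]
        have h5 : |(4 : K)| = 4 := abs_of_pos (by norm_num)
        rw [h5]
        have : -u 0 / 4 * |y 1| < -u 0 / 4 * 2 := mul_lt_mul_of_pos_left h3 (by linarith)
        linarith
      have h5 := le_abs_self (y 0 ^ 2 - u 0)
      have h6 := sq_nonneg (y 0)
      linarith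
  rw [e]
  exact h1

/-- **Step C**: a definable cut with a gap gives a definable convex valuation ring. -/
theorem stepC {D : Set K} (hD : DfS D) (hdown : ∀ x y : K, x ≤ y → y ∈ D → x ∈ D)
    (hne : ∃ x, x ∈ D) (hpr : ∃ x, x ∉ D) {e : K} (he : 0 < e) (hgap : ∀ x ∈ D, x + e ∈ D) :
    ∃ A : ValuationSubring K, A ≠ ⊤ ∧ Dfb A ∧ ∀ x y : K, |x| ≤ |y| → y ∈ A → x ∈ A := by
  set I : Set K := {d | ∀ x ∈ D, x + d ∈ D ∧ x - d ∈ D} with hI
  have hmem : ∀ d, d ∈ I ↔ ∀ x ∈ D, x + |d| ∈ D := by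
    intro d
    constructor
    · intro h x hx
      rcases abs_choice d with h1 | h1
      · rw [h1]; exact (h x hx).1
      · rw [h1, ← sub_eq_add_neg]; exact (h x hx).2
    · intro h x hx
      have h1 := h x hx
      exact ⟨hdown _ _ (by linarith [le_abs_self d]) h1,
        hdown _ _ (by linarith [neg_abs_le d]) h1⟩
  have hC : Cvx I := by
    refine ⟨?_, ?_, ?_, ?_⟩
    · intro x y hx hy
      rw [hmem] at hx hy ⊢
      intro z hz
      have h1 := hy _ (hx z hz)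
      exact hdown _ _ (by linarith [abs_add_le x y]) h1
    · intro x y hxy hy
      rw [hmem] at hy ⊢
      intro z hz
      exact hdown _ _ (by linarith) (hy z hz)
    · refine ⟨e, ?_, he.ne'⟩
      rw [hmem, abs_of_pos he]
      exact hgap
    · obtain ⟨a, ha⟩ := hne
      obtain ⟨b, hb⟩ := hpr
      refine ⟨b - a, ?_⟩
      rw [hmem]
      intro h
      have h1 := h a ha
      exact hb (hdown _ _ (by linarith [le_abs_self (b - a)]) h1)
  refine of_cvx hC (dfS_of_dfK ?_)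
  have h1 : DfK {u : Fin 1 → K | ∀ y : Fin 1 → K, y 0 ∈ D → (y 0 + u 0 ∈ D ∧ y 0 - u 0 ∈ D)} := by
    apply dfK_forall 1 (Φ := fun u y => y 0 ∈ D → (y 0 + u 0 ∈ D ∧ y 0 - u 0 ∈ D))
    exact dfK_imp (dfk_substU hD (Tm.var _)) (dfK_and (dfk_substU hD ((Tm.var _).add (Tm.var _)))
      (dfk_substU hD (tm_sub (Tm.var _) (Tm.var _))))
  have e : {u : Fin 1 → K | u 0 ∈ I} = {u : Fin 1 → K | ∀ y : Fin 1 → K, y 0 ∈ D →
      (y 0 + u 0 ∈ D ∧ y 0 - u 0 ∈ D)} := by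
    ext u
    constructor
    · intro h y hy
      exact h _ hy
    · intro h y hy
      exact h (fun _ => y) hy
  rw [e]
  exact h1

end Pool.Agent.T9h43.NF
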